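import Pool.Agent.H91.CF.Fin

/-!
# Central values of all orthogonal Artin `L`-functions of degree two, ordered by conductor

Let `χ` run over the orthogonal characters of all quadratic fields `K` (real and imaginary): the
primitive Hecke characters of finite order, of any conductor `𝔣`, which are trivial on the rational
numbers and satisfy `χ ^ 2 ≠ 1`. By class field theory `Ind χ` runs over all the irreducible
orthogonal characters of degree two of the Galois groups of all finite Galois extensions of `ℚ`
(every one appears exactly twice, as `Ind χ` and `Ind χ⁻¹`, and `K` is the field cut out by its
determinant), `L(s, χ)` is the Artin `L`-function of `Ind χ`, and `|disc K| N(𝔣)` is its Artin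
conductor. We prove, unconditionally, that at least `19/27 = 70.37 %` (minus `ε`) of the characters
with conductor at most `X` satisfy `L(1/2, χ) ≠ 0`.

Idea.

(1) Characters. Since `χ` is trivial on the rational numbers, `𝔣 = (f)` with an integer `f`, and `χ`
is a primitive character of the ring class group of conductor `f`; there are about `|d|^{1/2} f`
of them for an imaginary field, and only a negligible number altogether for the real fields, as the
sum of the class numbers of the real quadratic fields of discriminant `d ≤ Y` is
`O(Y^{3/2} / log Y)` (a form of discriminant `d` has more than `c log d` reduced forms in its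
class). The number of the characters with `χ ^ 2 = 1` is negligible too. The characters with
`f > F` have the proportion `O(1/F)`, so that `f` may be fixed.

(2) The kernel of the primitive characters. For fixed `d = -D` and `f` Cauchy's inequality is applied
to the sum of the mollified central values over the primitive characters of conductor `f`. The
projection to the primitive characters is given by a local kernel on pairs of vectors `v, v'`: at
`p ∣ f` it compares the lines of `v, v'` modulo `p^a` and modulo `p^{a-1}`; the forms are the
forms of discriminant `-D` (not `-D f^2`). The kernel is a Gram kernel, so that the contribution of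
every form, primitive or not, is non-negative. By positivity the sum over the classes of discriminant
`-D` is at most the sum over all classes of positive forms over an enlarged family of discriminants,
given by congruences modulo small primes, and this sum unfolds to a sum over `B` modulo `2A` with
`4A ∣ B^2 + D`, with the value at `1/2` of an Epstein zeta function of level `f`.

(3) The average over the discriminant becomes an average over pairs `(B, C)` of integers; the central
value of the Epstein zeta function is averaged over `B` by Poisson's summation formula. The weights
depend on the splitting types of the primes `p ∣ N` (`f ∣ N`, `N` a fixed product of small primes),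
and the mollifier, a sum of Hecke operators `T_m` on the functions of the forms, depends on these
types. It may have the length `X^θ`, `θ < 1/4`.

(4) For the proportion of all characters every discriminant has the weight of its number of
characters, hence of its class number. The class number divided by `D^{1/2}` is compared, in mean
square, with the Euler product over the primes `p ≤ R`, which is a function of the types; the first
mollified moment is constant, up to the proportion of the primitive characters, in mean square.
Cauchy's inequality with an optimal weight function of the types gives the proportion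
`1 - (1 + 2 θ)^(-3)`, for every `f`, and `19/27` for `θ → 1/4`.

Lean proof: helper91 (Pool/Agent/H91/CF: plan, interface, assembly), helper31 (unfolding with the
kernel and average over the discriminant, Pool/Agent/H31/CF), helper65 (first moment and class numbers,
Pool/Agent/H65/CF), helper95 (characters, forms, `L`-functions, Pool/Agent/H95/CF), helper37 (ring
class groups, Pool/Agent/H37/CF), helper56 (real fields, counting, Pool/Agent/H56/CF), with modules by
helper3, helper4, helper9, helper10, helper13, helper14, helper16, helper17, helper18, helper19,
helper20, helper21, helper23, helper27, helper29, helper30, helper32, helper34, helper35, helper36,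
helper39, helper40, helper41, helper42, helper47, helper48, helper49, helper51, helper54, helper55,
helper59, helper60, helper68, helper69, helper70, helper72, helper73, helper74, helper75, helper76,
helper79, helper80, helper81, helper83, helper85, helper86, helper92, helper97, helper98, helper99
(Pool/Agent/H<n>/CF). It uses the library of helper31 and his team (Pool/Agent/H31/CN) and the
`L`-functions of ray class characters by helper28 and his team (Pool/Agent/H28/RC).
-/

set_option autoImplicit false

open NumberField

namespace Pool.Agent.Results.MP_347b49_nt.CompleteFamily

open Pool.Agent.H28.RC

/-- `d` is a fundamental discriminant, that is the discriminant of a quadratic field -/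
def IsFundamental (d : ℤ) : Prop :=
  (d % 4 = 1 ∧ Squarefree d ∧ d ≠ 1) ∨
    (4 ∣ d ∧ Squarefree (d / 4) ∧ ((d / 4) % 4 = 2 ∨ (d / 4) % 4 = 3))

open Classical in
/-- the fundamental discriminants `d` with `|d| ≤ X` -/
noncomputable def Ds (X : ℝ) : Finset ℤ := (Finset.Icc (-⌊X⌋) ⌊X⌋).filter IsFundamental

section
variable {K : Type} [Field K] [NumberField K]

/-- The character is trivial on the rational numbers (so that `Ind χ` has real values and the
determinant of the quadratic field `K`). -/
def TrivialOnQ (χ : RCC K) : Prop :=
  ∀ n : ℕ, 1 ≤ n → Ideal.span {(n : 𝓞 K)} ⊔ χ.f = ⊤ → χ.ψ (Ideal.span {(n : 𝓞 K)}) = 1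

/-- `χ ^ 2 ≠ 1` (so that `Ind χ` is irreducible) -/
def NotReal (χ : RCC K) : Prop := ∃ I : Ideal (𝓞 K), χ.ψ I ^ 2 ≠ 0 ∧ χ.ψ I ^ 2 ≠ 1

/-- the conductor of `Ind χ` -/
noncomputable def conductor (χ : RCC K) : ℝ := |(discr K : ℝ)| * Ideal.absNorm χ.f

/-- The `L`-function `∑ χ(I) N(I)^(-s)` has an entire continuation which does not vanish at
`1/2`. -/
def NonVanishing (χ : RCC K) : Prop :=
  ∃ Λ : ℂ → ℂ, Differentiable ℂ Λ ∧ (∀ s : ℂ, 1 < s.re → Λ s = Lc χ s) ∧ Λ (1 / 2) ≠ 0

end

/-- The orthogonal characters of `K` with conductor at most `X`. Here `RCC K` is the type of all the
primitive ray class characters `ψ` of `K`, with conductor `f` and a set `S` of real places: the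
primitive Hecke characters of finite order. -/
def Orth (K : Type) [Field K] [NumberField K] (X : ℝ) : Set (RCC K) :=
  {χ | TrivialOnQ χ ∧ NotReal χ ∧ conductor χ ≤ X}

/-- For every fundamental discriminant `d` with `|d| ≤ X` let `K d` be a quadratic field of
discriminant `d`. Among all the orthogonal characters `χ` of all the fields `K d` with conductor at
most `X` at least the proportion `19/27 - ε` has an entire `L`-function with `L(1/2, χ) ≠ 0`, for all
large `X`. -/
theorem result : ∀ ε : ℝ, 0 < ε → ∃ X₀ : ℝ, ∀ X : ℝ, X₀ ≤ X →
    ∀ (K : ℤ → Type) [∀ d, Field (K d)] [∀ d, NumberField (K d)],
      (∀ d ∈ Ds X, Module.finrank ℚ (K d) = 2 ∧ discr (K d) = d) →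
      (∀ d ∈ Ds X, (Orth (K d) X).Finite) ∧
      (19 / 27 - ε) * ∑ d ∈ Ds X, ((Orth (K d) X).ncard : ℝ) ≤
        ∑ d ∈ Ds X, ({χ : RCC (K d) | χ ∈ Orth (K d) X ∧ NonVanishing χ}.ncard : ℝ) :=
  Pool.Agent.H91.CF.Fin.a_FIN2

end Pool.Agent.Results.MP_347b49_nt.CompleteFamily
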