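import Pool.Agent.H65.CRG.All

/-!
# Zeros on the critical line of the Artin L-functions of the Galois groups of ray class fields
(MP_347b49_nt)

Let `F` be a CM field which is Galois over `ℚ`, `d = [F : ℚ]` and `ε > 0`. For `T ≥ T₀` and all prime
numbers `q ≥ q₀(T)` let `L` be the ray class field of `F` modulo `q` and `G = Gal(L/ℚ)`. There is a
set `U` of at least `(1 - ε) |Irr(G)|` irreducible characters `χ` of `G`, all unitary of degree `d`
and with an entire Artin `L`-function with at most `(1 + ε) (d T / 2π) log q` zeros with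
`0 < Im s < T`, such that in the mean over `U` at least the proportion `κ(d)` of these zeros lies on
the critical line, and for `d ≤ 6` only simple zeros are counted on the line: `κ(2) = 34/100`,
`κ(4) = 12/100`, `κ(6) = 1/300`, `κ(d) = 2/(3d)` for `d ≥ 8`.

Idea. `L(s, χ)` is the `L`-function of a primitive ray class character `ψ` of `F` of conductor `(q)`.
Levinson's method in the family of these `ψ`, with the zeros counted by Carleman's formula in
rectangles of bounded height: the mean square of a mollified auxiliary function on the line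
`Re s = 1/2 - R/(d log q)` is computed for mollifiers of length `q^(1 - ε)`, from the second moment of
`L(1/2 + α + iu, ψ)` with shifts `α` of size `1 / log q`. Off the diagonal a pair of coprime ideals
`I`, `J` contributes if `I` and `J` are equivalent modulo `q`; pairs with small norms come from ideals
of the maximal real subfield, with a congruence between their norms, and the remaining small ones are
killed by the cancellation in Selberg's quadratic form with shifts. The relative length of the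
mollifier is only `1/d`. For `d ≥ 8` the auxiliary function is `Q(-(1/L) d/ds)` applied to the
`L`-function, with polynomials `Q` which approximate a function with an exponentially sharp
transition at the centre: this gives a positive proportion of critical zeros for every `d`.

Lean proof: helper65 and helper31 (Pool/Agent/H65/CRG, Pool/Agent/H31/CRG) with modules by many
authors (see the imports of Pool/Agent/H65/CRG/All.lean), based on Pool/Agent/H37/CV and
Pool/Agent/H37/CA (helper37), Pool/Agent/H18/PZ (helper18), Pool/Agent/H25/HK, Pool/Agent/H28/RC.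
-/

set_option autoImplicit false

open NumberField

namespace Pool.Agent.Results.MP_347b49_nt.CriticalZeros

open Pool.Agent.H25.DL

/-- the irreducible complex characters of the group `G` -/
def Irr (G : Type) [Group G] : Set (G → ℂ) :=
  {χ | ∃ (V : Type) (_ : AddCommGroup V) (_ : Module ℂ V) (_ : FiniteDimensional ℂ V)
    (ρ : Representation ℂ G V), ρ.IsIrreducible ∧ χ = ρ.character}

/-- the Frobenius-Schur indicator `1/|G| ∑ χ(g²)`; irreducible characters with the indicator `0` are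
called unitary -/
noncomputable def indicator {G : Type} [Group G] (χ : G → ℂ) : ℂ :=
  (Nat.card G : ℂ)⁻¹ * ∑ᶠ g : G, χ (g ^ 2)

/-- `g` is a Frobenius element of `L/F` at the prime ideal `P` of `F` -/
def IsFrobenius {F L : Type} [Field F] [NumberField F] [Field L] [NumberField L] [Algebra F L]
    (P : Ideal (𝓞 F)) (g : L ≃ₐ[F] L) : Prop :=
  ∃ Q : Ideal (𝓞 L), Q.IsPrime ∧ Q.under (𝓞 F) = P ∧
    ∀ x : 𝓞 L, g • x - x ^ (Ideal.absNorm P) ∈ Q

/-- `L` is the ray class field of `F` modulo `m` (`F` is totally complex below): there is a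
multiplicative map `θ` of the ideals of `F` prime to `m` onto the Galois group of `L/F` which sends
every prime ideal to its Frobenius element (unique: the prime ideal is unramified) and whose kernel
consists of the principal ideals with a generator congruent to `1` modulo `m`. -/
def IsRayClassField (F L : Type) [Field F] [NumberField F] [Field L] [NumberField L]
    [Algebra F L] (m : Ideal (𝓞 F)) : Prop :=
  ∃ θ : Ideal (𝓞 F) → (L ≃ₐ[F] L),
    (∀ I J : Ideal (𝓞 F), I ≠ ⊥ → J ≠ ⊥ → I ⊔ m = ⊤ → J ⊔ m = ⊤ → θ (I * J) = θ I * θ J) ∧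
    (∀ (P : Ideal (𝓞 F)) (g : L ≃ₐ[F] L), P ⊔ m = ⊤ → IsFrobenius P g → g = θ P) ∧
    (∀ g : L ≃ₐ[F] L, ∃ I : Ideal (𝓞 F), I ≠ ⊥ ∧ I ⊔ m = ⊤ ∧ θ I = g) ∧
    ∀ I : Ideal (𝓞 F), I ≠ ⊥ → I ⊔ m = ⊤ →
      (θ I = 1 ↔ ∃ a : 𝓞 F, a - 1 ∈ m ∧ I = Ideal.span {a})

/-- the choice of a prime ideal of `L` above every prime number `p` and of a Frobenius element -/
structure Frobenii (L : Type) [Field L] [NumberField L] where
  P : Nat.Primes → Ideal (𝓞 L)
  P_prime : ∀ p, (P p).IsPrime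
  P_mem : ∀ p : Nat.Primes, ((p : ℕ) : 𝓞 L) ∈ P p
  Fr : Nat.Primes → (L ≃ₐ[ℚ] L)
  Fr_spec : ∀ (p : Nat.Primes) (x : 𝓞 L), Fr p • x - x ^ (p : ℕ) ∈ P p

/-- the representation `ρ` of the Galois group of `L/ℚ` with the Frobenius elements of `D` -/
noncomputable def Frobenii.rep {L : Type} [Field L] [NumberField L] [IsGalois ℚ L]
    (D : Frobenii L) (V : Type) [AddCommGroup V] [Module ℂ V] [FiniteDimensional ℂ V]
    (ρ : Representation ℂ (L ≃ₐ[ℚ] L) V) : ArtinRep where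
  K := L
  fK := inferInstance
  nK := inferInstance
  gK := inferInstance
  V := V
  aV := inferInstance
  mV := inferInstance
  dV := inferInstance
  rho := ρ
  P := D.P
  P_prime := D.P_prime
  P_mem := D.P_mem
  Fr := D.Fr
  Fr_spec := D.Fr_spec

/-- `Λ` is entire and the Artin `L`-function of `R`: it is given by the Euler product
`∏_p det (1 - p^{-s} Frob_p | V^{I_p})^{-1}` for `Re s > 1`. -/
def IsEntireArtinLFunction (R : ArtinRep) (Λ : ℂ → ℂ) : Prop :=
  Differentiable ℂ Λ ∧ ∀ s : ℂ, 1 < s.re → HasProd (fun p => R.euler p s) (Λ s)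

/-- the zeros of `Λ` with `0 < Im s < T` -/
def zeros (Λ : ℂ → ℂ) (T : ℝ) : Set ℂ := {ρ | Λ ρ = 0 ∧ 0 < ρ.im ∧ ρ.im < T}

/-- the number of these zeros, counted with multiplicity -/
noncomputable def count (Λ : ℂ → ℂ) (T : ℝ) : ℕ := ∑ᶠ ρ ∈ zeros Λ T, analyticOrderNatAt Λ ρ

/-- the zeros on the critical line; for `d ≤ 6` only the simple ones -/
def criticalZeros (d : ℕ) (Λ : ℂ → ℂ) (T : ℝ) : Set ℂ :=
  {ρ | ρ ∈ zeros Λ T ∧ ρ.re = 1 / 2 ∧ (d ≤ 6 → deriv Λ ρ ≠ 0)}

/-- the proportion -/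
noncomputable def κ (d : ℕ) : ℝ :=
  if d = 2 then 34 / 100 else if d = 4 then 12 / 100 else if d = 6 then 1 / 300 else 2 / (3 * d)

theorem κ_two : κ 2 = 34 / 100 := by unfold κ; norm_num
theorem κ_four : κ 4 = 12 / 100 := by unfold κ; norm_num
theorem κ_six : κ 6 = 1 / 300 := by unfold κ; norm_num
theorem κ_of_ge {d : ℕ} (hd : 8 ≤ d) : κ d = 2 / (3 * d) := by
  unfold κ
  rw [if_neg (by omega), if_neg (by omega), if_neg (by omega)]

theorem count_eq {Λ : ℂ → ℂ} {T : ℝ}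
    (h : {ρ : ℂ | ρ ∈ Pool.Agent.H65.CRZ.St T ∧ Λ ρ = 0}.Finite) :
    (zeros Λ T).Finite ∧ (count Λ T : ℝ) = Pool.Agent.H65.CRZ.zc Λ (Pool.Agent.H65.CRZ.St T) := by
  have h1 : zeros Λ T = {ρ : ℂ | ρ ∈ Pool.Agent.H65.CRZ.St T ∧ Λ ρ = 0} := by
    ext ρ
    constructor
    · rintro ⟨h2, h3, h4⟩
      exact ⟨⟨h3, h4⟩, h2⟩
    · rintro ⟨⟨h3, h4⟩, h2⟩
      exact ⟨h2, h3, h4⟩
  refine ⟨by rw [h1]; exact h, ?_⟩
  unfold count Pool.Agent.H65.CRZ.zc
  rw [h1, finsum_mem_eq_finite_toFinset_sum _ h, finsum_mem_eq_finite_toFinset_sum _ h]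
  push_cast
  rfl

theorem result (F : Type) [Field F] [NumberField F] [IsCMField F] [IsGalois ℚ F] (ε : ℝ)
    (hε : 0 < ε) :
    ∃ T₀ : ℝ, ∀ T : ℝ, T₀ ≤ T → ∃ q₀ : ℕ, ∀ q : ℕ, q.Prime → q₀ ≤ q →
      ∀ (L : Type) [Field L] [NumberField L] [Algebra F L] [IsGalois ℚ L],
        IsRayClassField F L (Ideal.span {(q : 𝓞 F)}) →
          (Irr (L ≃ₐ[ℚ] L)).Finite ∧
          ∃ (U : Set ((L ≃ₐ[ℚ] L) → ℂ)) (Λ : ((L ≃ₐ[ℚ] L) → ℂ) → ℂ → ℂ),
            U ⊆ Irr (L ≃ₐ[ℚ] L) ∧ (1 - ε) * (Irr (L ≃ₐ[ℚ] L)).ncard ≤ (U.ncard : ℝ) ∧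
            (∀ χ ∈ U, χ 1 = Module.finrank ℚ F ∧ indicator χ = 0 ∧
              (∀ (D : Frobenii L) (V : Type) [AddCommGroup V] [Module ℂ V]
                [FiniteDimensional ℂ V] (ρ : Representation ℂ (L ≃ₐ[ℚ] L) V), χ = ρ.character →
                IsEntireArtinLFunction (D.rep V ρ) (Λ χ)) ∧
              (zeros (Λ χ) T).Finite ∧
              (count (Λ χ) T : ℝ) ≤
                (1 + ε) * (Module.finrank ℚ F * T / (2 * Real.pi) * Real.log q)) ∧
            κ (Module.finrank ℚ F) * (Module.finrank ℚ F * T / (2 * Real.pi) * Real.log q) *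
                (U.ncard : ℝ) ≤
              ∑ᶠ χ ∈ U, ((criticalZeros (Module.finrank ℚ F) (Λ χ) T).ncard : ℝ) ∧
            κ (Module.finrank ℚ F) * (∑ᶠ χ ∈ U, (count (Λ χ) T : ℝ)) ≤
              ∑ᶠ χ ∈ U, ((criticalZeros (Module.finrank ℚ F) (Λ χ) T).ncard : ℝ) := by
  obtain ⟨e, he⟩ : ∃ e : ℝ, e = min ε (1 / 10000) := ⟨_, rfl⟩
  have he0 : 0 < e := by rw [he]; exact lt_min hε (by norm_num)
  have heε : e ≤ ε := by rw [he]; exact min_le_left _ _
  have he1 : e ≤ 1 / 10000 := by rw [he]; exact min_le_right _ _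
  obtain ⟨T₀, hT₀, h⟩ := Pool.Agent.H65.CRG.FG_proved F e he0
  refine ⟨T₀, fun T hT => ?_⟩
  have hT0 : 0 < T := hT₀.trans_le hT
  obtain ⟨q₀, h⟩ := h T hT
  refine ⟨q₀, fun q hq hqq L _ _ _ _ hL => ?_⟩
  obtain ⟨h1, U, Λ, h2, h3, h3', h4, h5, h6, h7, h8⟩ := h q hq hqq L hL
  obtain ⟨d, hd⟩ : ∃ d : ℕ, d = Module.finrank ℚ F := ⟨_, rfl⟩
  rw [← hd] at h5 h6 h7 h8 ⊢
  simp only [← hd] at h4
  have hXeq : T / Real.pi * ((d : ℝ) / 2 * Real.log q) =
      d * T / (2 * Real.pi) * Real.log q := by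
    have := Real.pi_ne_zero
    field_simp
  rw [hXeq] at h5 h7
  simp only [hXeq] at h4
  obtain ⟨X, hX⟩ : ∃ X : ℝ, X = d * T / (2 * Real.pi) * Real.log q := ⟨_, rfl⟩
  rw [← hX] at h5 h7 ⊢
  simp only [← hX] at h4
  have hX0 : 0 ≤ X := by
    rw [hX]
    have h9 := Real.pi_pos
    have h10 : 0 ≤ Real.log q := Real.log_nonneg (by exact_mod_cast hq.one_lt.le)
    positivity
  have hIrr : 0 ≤ ((Irr (L ≃ₐ[ℚ] L)).ncard : ℝ) := Nat.cast_nonneg _
  have hUf : U.Finite := Set.Finite.subset h1 h2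
  have hsum : ∑ᶠ χ ∈ U, (count (Λ χ) T : ℝ) =
      ∑ᶠ χ ∈ U, Pool.Agent.H65.CRZ.zc (Λ χ) (Pool.Agent.H65.CRZ.St T) := by
    refine finsum_mem_congr rfl fun χ hχ => ?_
    exact (count_eq (h4 χ hχ).2.2.2.2.1).2
  have hznn : 0 ≤ ∑ᶠ χ ∈ U, Pool.Agent.H65.CRZ.zc (Λ χ) (Pool.Agent.H65.CRZ.St T) := by
    rw [← hsum]
    exact Pool.Agent.H65.CRG.fsum_nonneg hUf fun _ _ => Nat.cast_nonneg _
  refine ⟨h1, U, Λ, h2, le_trans (mul_le_mul_of_nonneg_right (by linarith) hIrr) h3,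
    fun χ hχ => ?_, ?_⟩
  · obtain ⟨k1, k2, k3, k4, k5, k6⟩ := h4 χ hχ
    obtain ⟨k7, k8⟩ := count_eq k5
    refine ⟨k1, k2, fun D V _ _ _ ρ hρ => ⟨k3, fun s hs => ?_⟩, k7, ?_⟩
    · exact k4 ⟨D.P, D.P_prime, D.P_mem, D.Fr, D.Fr_spec⟩ V ρ hρ s hs
    · rw [k8]
      exact k6.trans (mul_le_mul_of_nonneg_right (by linarith) hX0)
  · rw [hsum]
    by_cases h9 : d ≤ 6
    · -- simple zeros
      have hle : κ d ≤ Pool.Agent.H65.CRG.ks d - e ∨ ¬ (d = 2 ∨ d = 4 ∨ d = 6) := by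
        by_cases h10 : d = 2 ∨ d = 4 ∨ d = 6
        · left
          rcases h10 with h10 | h10 | h10 <;> rw [h10] <;> unfold κ Pool.Agent.H65.CRG.ks <;>
            norm_num <;> linarith
        · exact Or.inr h10
      have heven : d = 2 ∨ d = 4 ∨ d = 6 := by
        have h11 := Pool.Agent.H65.CRG.finrank_even F
        rw [← hd] at h11
        have h12 : 0 < d := by rw [hd]; exact Module.finrank_pos
        obtain ⟨m, hm⟩ := h11
        omega
      have hκ : κ d ≤ Pool.Agent.H65.CRG.ks d - e := by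
        rcases hle with h10 | h10
        · exact h10
        · exact absurd heven h10
      have hSZ : ∑ᶠ χ ∈ U, ((Pool.Agent.H65.CRZ.SZ (Λ χ) 0 T).ncard : ℝ) ≤
          ∑ᶠ χ ∈ U, ((criticalZeros d (Λ χ) T).ncard : ℝ) := by
        refine Pool.Agent.H65.CRG.fsum_mono hUf fun χ hχ => ?_
        have hfin : (criticalZeros d (Λ χ) T).Finite :=
          (count_eq (h4 χ hχ).2.2.2.2.1).1.subset fun ρ hρ => hρ.1
        have hsub : Pool.Agent.H65.CRZ.SZ (Λ χ) 0 T ⊆ criticalZeros d (Λ χ) T :=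
          fun ρ hρ => ⟨⟨hρ.1, hρ.2.2.2.1, hρ.2.2.2.2⟩, hρ.2.2.1, fun _ => hρ.2.1⟩
        exact_mod_cast Set.ncard_le_ncard hsub hfin
      constructor
      · refine le_trans ?_ (h7.trans hSZ)
        gcongr
      · refine le_trans ?_ (h8.trans hSZ)
        exact mul_le_mul_of_nonneg_right hκ hznn
    · have hκ : κ d = 2 / (3 * (d : ℝ)) := by
        unfold κ
        rw [if_neg (by omega), if_neg (by omega), if_neg (by omega)]
      have hLZ : ∑ᶠ χ ∈ U, ((Pool.Agent.H65.CRG.LZ (Λ χ) T).ncard : ℝ) ≤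
          ∑ᶠ χ ∈ U, ((criticalZeros d (Λ χ) T).ncard : ℝ) := by
        refine Pool.Agent.H65.CRG.fsum_mono hUf fun χ hχ => ?_
        have hfin : (criticalZeros d (Λ χ) T).Finite :=
          (count_eq (h4 χ hχ).2.2.2.2.1).1.subset fun ρ hρ => hρ.1
        have hsub : Pool.Agent.H65.CRG.LZ (Λ χ) T ⊆ criticalZeros d (Λ χ) T :=
          fun ρ hρ => ⟨⟨hρ.1, hρ.2.2.1, hρ.2.2.2⟩, hρ.2.1, fun h => absurd h h9⟩
        exact_mod_cast Set.ncard_le_ncard hsub hfin
      rw [hκ]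
      exact ⟨h5.trans hLZ, h6.trans hLZ⟩

end Pool.Agent.Results.MP_347b49_nt.CriticalZeros
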