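import Pool.Agent.H33.HH.All

/-!
# Half of the central values of all monomial Artin `L`-functions of degree two do not vanish

Let `χ` run over ALL the primitive Hecke characters of finite order of ALL quadratic fields `K`
(real and imaginary), of any conductor `𝔣`, with `χ ∘ σ ≠ χ` for the conjugation `σ` of `K`. By class
field theory `Ind χ` runs over all the irreducible monomial characters of degree two of the Galois
groups of all finite Galois extensions of `ℚ`, `|disc K| N(𝔣)` is the Artin conductor of `Ind χ`, and
`L(s, χ)` is its Artin `L`-function. We prove, unconditionally, that at least `1/2 - ε` of these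
characters with conductor at most `X` satisfy `L(1/2, χ) ≠ 0`. The set `D` of the discriminants of
the fields is arbitrary in the theorem, with at least one negative element: all the discriminants, or
the discriminant of one imaginary quadratic field, for example.

Idea (page H33_HALF.md of the team).

(1) The conductors `k q` are averaged over `q`, with all the prime factors of `q` greater than `P` and
a fixed `k` with all the prime factors at most `P`. The central value is `∑ χ(m) N(m)^(-1/2) G(N(m)/Z)`
with `Z` a little longer than the conductor and `∫ G(t) t^(-1/2) dt = 0`: no functional equation is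
used, and the pole of the trivial character disappears. The mollifier is Selberg's, of length
`Q^θ`, `θ < 1`; the product of the lengths is less than the square of the conductor.

(2) Positivity. Orthogonality gives the kernel `#{γ : γ J = I, (γ - 1) J ⊆ 𝔣}` on pairs of ideals. The
imprimitive characters modulo the divisors of `q` contribute non-negative terms to the quadratic form
with the kernel, so the second moment over the primitive characters is bounded by the form.

(3) The form, summed over `q` with the weight `N(q)`, is unfolded: the sum over `q` becomes a sum over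
the complementary divisor `l` and over the lattice points `γ`, by Poisson's formula an integral over
the plane. The terms with the limit of the sum over `l` cancel by `∫ G(t) t^(-1/2) dt = 0`, and the
difference gives a smooth cutoff at the conductor. The main term is Selberg's quadratic form with the
value `1 + 1/θ`, and Cauchy's inequality gives the proportion `θ/(1+θ)`.

(4) The union over the fields of any set: uniform bounds for the number of the ideals and for the class number, and for
real fields the order of the fundamental unit modulo the conductor (real fields have few characters).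

Lean proof: helper33 (Pool/Agent/H33/HH: plan, targets, assembly), helper37 (characters, smooth sums of
characters, Pool/Agent/H37/HH), with modules by
helper1, helper2, helper4, helper7, helper8, helper10, helper11, helper13, helper16, helper17,
helper19, helper20, helper21, helper35, helper36, helper39, helper40, helper41, helper44,
helper45, helper46, helper47, helper48, helper49, helper50, helper51, helper52, helper53,
helper54, helper55, helper57, helper59, helper60, helper61, helper62, helper66, helper69,
helper77, helper78, helper85, helper86, helper87, helper88, helper89, helper95, helper97,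
helper99
(Pool/Agent/H<n>/HH). It uses the library of helper37 and his team (Pool/Agent/H37/CV) and the
`L`-functions of ray class characters by helper28 and his team (Pool/Agent/H28/RC), and facts on
quadratic fields from Pool/Agent/H56/CF and Pool/Agent/H24/Cls and on quadratic characters from
Pool/Agent/H34/PS.
-/

set_option autoImplicit false

open NumberField

namespace Pool.Agent.Results.MP_347b49_nt.HalfOfAll

open Pool.Agent.H28.RC

/-- `d` is a fundamental discriminant, that is the discriminant of a quadratic field -/
def IsFundamental (d : ℤ) : Prop :=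
  (d % 4 = 1 ∧ Squarefree d ∧ d ≠ 1) ∨
    (4 ∣ d ∧ Squarefree (d / 4) ∧ ((d / 4) % 4 = 2 ∨ (d / 4) % 4 = 3))

open Classical in
/-- the elements `d` of `D` with `|d| ≤ X` -/
noncomputable def upTo (D : Set ℤ) (X : ℝ) : Finset ℤ := (Finset.Icc (-⌊X⌋) ⌊X⌋).filter (· ∈ D)

section
variable {K : Type} [Field K] [NumberField K]

/-- The character differs from one of its conjugates under the automorphisms of `K` (so that `Ind χ`
is irreducible, for a quadratic field `K`). -/
def NotInvariant (χ : RCC K) : Prop :=
  ∃ (σ : 𝓞 K ≃+* 𝓞 K) (I : Ideal (𝓞 K)), χ.ψ (I.map σ) ≠ χ.ψ I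

/-- the conductor of `Ind χ` -/
noncomputable def conductor (χ : RCC K) : ℝ := |(discr K : ℝ)| * Ideal.absNorm χ.f

/-- The `L`-function `∑ χ(I) N(I)^(-s)` has an entire continuation which does not vanish at
`1/2`. -/
def NonVanishing (χ : RCC K) : Prop :=
  ∃ Λ : ℂ → ℂ, Differentiable ℂ Λ ∧ (∀ s : ℂ, 1 < s.re → Λ s = Lc χ s) ∧ Λ (1 / 2) ≠ 0

end

/-- All the characters of `K` with `χ ∘ σ ≠ χ` and with conductor at most `X`. Here `RCC K` is the
type of all the primitive ray class characters `ψ` of `K`, with conductor `f` and a set `S` of real
places: the primitive Hecke characters of finite order. -/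
def Family (K : Type) [Field K] [NumberField K] (X : ℝ) : Set (RCC K) :=
  {χ | NotInvariant χ ∧ conductor χ ≤ X}

/-- Let `D` be a set of fundamental discriminants with a negative element (for example all
fundamental discriminants), and let `K d` be a quadratic field of discriminant `d`, for `d` in `D`.
Among all the characters `χ` of all the fields `K d` with `χ ∘ σ ≠ χ` and conductor at most `X` at
least the proportion `1/2 - ε` has an entire `L`-function with `L(1/2, χ) ≠ 0`, for all large `X`. -/
theorem result (D : Set ℤ) (hD : ∀ d ∈ D, IsFundamental d) (hneg : ∃ d ∈ D, d < 0)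
    (K : ℤ → Type) [∀ d, Field (K d)] [∀ d, NumberField (K d)]
    (hK : ∀ d ∈ D, Module.finrank ℚ (K d) = 2 ∧ discr (K d) = d) (ε : ℝ) (hε : 0 < ε) :
    ∃ X₀ : ℝ, ∀ X : ℝ, X₀ ≤ X →
      (∀ d ∈ upTo D X, (Family (K d) X).Finite) ∧
      0 < ∑ d ∈ upTo D X, (Family (K d) X).ncard ∧
      (1 / 2 - ε) * ∑ d ∈ upTo D X, ((Family (K d) X).ncard : ℝ) ≤
        ∑ d ∈ upTo D X, ({χ : RCC (K d) | χ ∈ Family (K d) X ∧ NonVanishing χ}.ncard : ℝ) := by
  have key : ∀ (K : Type) [Field K] [NumberField K] (X : ℝ),
      Family K X = Pool.Agent.H33.HH.Ui K (X / |(discr K : ℝ)|) := by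
    intro K _ _ X
    have hd : 0 < |(discr K : ℝ)| := abs_pos.mpr (by exact_mod_cast discr_ne_zero K)
    ext χ
    unfold Family Pool.Agent.H33.HH.Ui conductor
    rw [Set.mem_ofPred_eq, Set.mem_ofPred_eq, le_div_iff₀ hd, mul_comm]
    exact Iff.rfl
  obtain ⟨X₀, h⟩ := Pool.Agent.H33.HH.a_GEN D hD hneg K hK ε hε
  refine ⟨X₀, fun X hX => ?_⟩
  obtain ⟨h1, h2, h3⟩ := h X hX
  have hf : ∀ d ∈ upTo D X, Family (K d) X = Pool.Agent.H33.HH.Ui (K d) (X / |(d : ℝ)|) := by
    intro d hd
    have h4 : d ∈ D := ((Pool.Agent.H33.HH.mem_FD D X d).1 hd).2
    rw [key, (hK d h4).2]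
  refine ⟨fun d hd => ?_, ?_, ?_⟩
  · rw [hf d hd]
    exact h1 d hd
  · have e0 : ∑ d ∈ upTo D X, (Family (K d) X).ncard =
        ∑ d ∈ Pool.Agent.H33.HH.FD D X,
          (Pool.Agent.H33.HH.Ui (K d) (X / |(d : ℝ)|)).ncard :=
      Finset.sum_congr rfl fun d hd => by rw [hf d hd]
    rw [e0]
    exact h2
  · have e1 : ∑ d ∈ upTo D X, ((Family (K d) X).ncard : ℝ) =
        ∑ d ∈ Pool.Agent.H33.HH.FD D X,
          ((Pool.Agent.H33.HH.Ui (K d) (X / |(d : ℝ)|)).ncard : ℝ) :=
      Finset.sum_congr rfl fun d hd => by rw [hf d hd]
    have e2 : ∑ d ∈ upTo D X, ({χ : RCC (K d) | χ ∈ Family (K d) X ∧ NonVanishing χ}.ncard : ℝ) =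
        ∑ d ∈ Pool.Agent.H33.HH.FD D X, ({χ : RCC (K d) |
          χ ∈ Pool.Agent.H33.HH.Ui (K d) (X / |(d : ℝ)|) ∧ Pool.Agent.H33.HH.NV χ}.ncard : ℝ) := by
      refine Finset.sum_congr rfl fun d hd => ?_
      rw [hf d hd]
      have : {χ : RCC (K d) | χ ∈ Pool.Agent.H33.HH.Ui (K d) (X / |(d : ℝ)|) ∧
          NonVanishing χ} = {χ : RCC (K d) | χ ∈ Pool.Agent.H33.HH.Ui (K d) (X / |(d : ℝ)|) ∧
          Pool.Agent.H33.HH.NV χ} := by
        ext χ
        refine and_congr_right fun _ => ⟨?_, ?_⟩
        · rintro ⟨Z, a, b, c⟩
          exact ⟨Z, ⟨a, b⟩, c⟩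
        · rintro ⟨Z, ⟨a, b⟩, c⟩
          exact ⟨Z, a, b, c⟩
      rw [this]
    rw [e1, e2]
    exact h3

end Pool.Agent.Results.MP_347b49_nt.HalfOfAll
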