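import Pool.Agent.H65.CZF.All

/-!
# More than 56 per cent of the zeros of the Artin `L`-functions of degree two induced from imaginary
quadratic fields are simple and on the critical line

Let `χ` run over ALL the primitive Hecke characters of finite order of ALL imaginary quadratic fields
`K` (or of the fields whose discriminants lie in an arbitrary nonempty set `D`, for example of one
field), of any conductor `𝔣`, with `χ ∘ σ ≠ χ` for the conjugation `σ` of `K`. By class field theory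
`Ind χ` runs over all the irreducible characters of degree two of the finite Galois groups over `ℚ`
which are induced from imaginary quadratic fields, `|disc K| N(𝔣)` is the Artin conductor of `Ind χ`,
and `L(s, χ)` is its Artin `L`-function. We prove, unconditionally, that of all the zeros in
`0 < Im s < T` of all these `L`-functions with conductor at most `X`, counted with multiplicity, at
least 56 per cent are simple and lie on the line `Re s = 1/2`, for `T ≥ T₀` and `X ≥ X₀(T)`.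

Idea (page H33_CRIT.md of the team).

(1) Levinson's method with Conrey's polynomials (`Q` linear) for the family, with Carleman's formula
and one abscissa `1/2 - R / log Q` for all the characters. The mollifier is Selberg's, of length
`Q^θ`, `θ = 0.999`, so the constant is that of Conrey, Iwaniec and Soundararajan for Dirichlet
`L`-functions.

(2) The mean square of the mollified auxiliary function on the left line: it is a Cauchy integral over
the shifts; by positivity (as in `HalfOfAll`) the mean square over the primitive characters is at most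
the value of the quadratic form with the lattice kernel at the averaged coefficients, so the shifted
second moment of the form is needed only, and this is evaluated with complex shifts and at any height:
the coefficients `n^(-s) G_s(n/Z)` with `∫ t^(-s) G_s(t) dt = 0` kill the pole for every `s`.

(3) All the conductors `k q` (`k` composed of the small primes) and all the fields: bounds uniform in
the field for the `L`-functions, for the number of the zeros, of the ideals and for the class number.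

Lean proof: helper33 (plan, second moment, Pool/Agent/H33/HC), helper65 (Levinson's method for the
family, assembly, Pool/Agent/H65/CZF), helper37 (characters), with modules by many others
(Pool/Agent/H<n>/HC, Pool/Agent/H<n>/CZF). It uses the packages of `HalfOfAll` (Pool/Agent/H33/HH) and
`CriticalZeros` (Pool/Agent/H65/CRZ, Pool/Agent/H65/CRG), the library of helper37 and his team
(Pool/Agent/H37/CV) and the `L`-functions of ray class characters by helper28 and his team
(Pool/Agent/H28/RC).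
-/

set_option autoImplicit false

open NumberField

namespace Pool.Agent.Results.MP_347b49_nt.MostZerosCritical

open Pool.Agent.H28.RC

/-- `d` is a fundamental discriminant, that is the discriminant of a quadratic field -/
def IsFundamental (d : ℤ) : Prop :=
  (d % 4 = 1 ∧ Squarefree d ∧ d ≠ 1) ∨
    (4 ∣ d ∧ Squarefree (d / 4) ∧ ((d / 4) % 4 = 2 ∨ (d / 4) % 4 = 3))

open Classical in
/-- the elements `d` of `D` with `|d| ≤ X` -/
noncomputable def upTo (D : Set ℤ) (X : ℝ) : Finset ℤ := (Finset.Icc (-⌊X⌋) ⌊X⌋).filter (· ∈ D)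

section
variable {K : Type} [Field K] [NumberField K]

/-- The character differs from one of its conjugates under the automorphisms of `K` (so that `Ind χ`
is irreducible, for a quadratic field `K`). -/
def NotInvariant (χ : RCC K) : Prop :=
  ∃ (σ : 𝓞 K ≃+* 𝓞 K) (I : Ideal (𝓞 K)), χ.ψ (I.map σ) ≠ χ.ψ I

/-- the conductor of `Ind χ` -/
noncomputable def conductor (χ : RCC K) : ℝ := |(discr K : ℝ)| * Ideal.absNorm χ.f

/-- `Λ` is the entire continuation of the `L`-function `∑ χ(I) N(I)^(-s)` -/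
def IsEntireL (χ : RCC K) (Λ : ℂ → ℂ) : Prop :=
  Differentiable ℂ Λ ∧ ∀ s : ℂ, 1 < s.re → Λ s = Lc χ s

end

/-- All the characters of `K` with `χ ∘ σ ≠ χ` and with conductor at most `X`. Here `RCC K` is the
type of all the primitive ray class characters `ψ` of `K`, with conductor `f` and a set `S` of real
places: the primitive Hecke characters of finite order. -/
def Family (K : Type) [Field K] [NumberField K] (X : ℝ) : Set (RCC K) :=
  {χ | NotInvariant χ ∧ conductor χ ≤ X}

/-- the zeros `ρ` of `Λ` with `0 < Im ρ < T` -/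
def zeros (Λ : ℂ → ℂ) (T : ℝ) : Set ℂ := {ρ | Λ ρ = 0 ∧ 0 < ρ.im ∧ ρ.im < T}

/-- the number of the zeros `ρ` of `Λ` with `0 < Im ρ < T`, counted with multiplicity -/
noncomputable def count (Λ : ℂ → ℂ) (T : ℝ) : ℕ := ∑ᶠ ρ ∈ zeros Λ T, analyticOrderNatAt Λ ρ

/-- the simple zeros on the critical line with `0 < Im ρ < T` -/
def simpleCritical (Λ : ℂ → ℂ) (T : ℝ) : Set ℂ := {ρ | ρ ∈ zeros Λ T ∧ deriv Λ ρ ≠ 0 ∧ ρ.re = 1 / 2}

theorem count_eq {Λ : ℂ → ℂ} {T : ℝ}
    (h : {ρ : ℂ | ρ ∈ Pool.Agent.H65.CRZ.St T ∧ Λ ρ = 0}.Finite) :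
    (zeros Λ T).Finite ∧ (count Λ T : ℝ) = Pool.Agent.H65.CRZ.zc Λ (Pool.Agent.H65.CRZ.St T) := by
  have h1 : zeros Λ T = {ρ : ℂ | ρ ∈ Pool.Agent.H65.CRZ.St T ∧ Λ ρ = 0} := by
    ext ρ
    constructor
    · rintro ⟨h2, h3, h4⟩
      exact ⟨⟨h3, h4⟩, h2⟩
    · rintro ⟨⟨h3, h4⟩, h2⟩
      exact ⟨h2, h3, h4⟩
  refine ⟨by rw [h1]; exact h, ?_⟩
  unfold count Pool.Agent.H65.CRZ.zc
  rw [h1, finsum_mem_eq_finite_toFinset_sum _ h, finsum_mem_eq_finite_toFinset_sum _ h]
  push_cast
  rfl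

theorem simple_eq (Λ : ℂ → ℂ) (T : ℝ) : simpleCritical Λ T = Pool.Agent.H65.CRZ.SZ Λ 0 T := by
  ext ρ
  constructor
  · rintro ⟨⟨h1, h2, h3⟩, h4, h5⟩
    exact ⟨h1, h4, h5, h2, h3⟩
  · rintro ⟨h1, h4, h5, h2, h3⟩
    exact ⟨⟨h1, h2, h3⟩, h4, h5⟩

/-- Let `D` be a nonempty set of negative fundamental discriminants (for example all of them, or one
of them), and let `K d` be a quadratic field of discriminant `d`, for `d` in `D`. The characters `χ`
of `K d` with `χ ∘ σ ≠ χ` have entire `L`-functions `L(s, χ)` with finitely many zeros in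
`0 < Im s < T`. There is `T₀` and for every `T ≥ T₀` an `X₀` such that for `X ≥ X₀`: of all the zeros
with `0 < Im s < T` of the `L(s, χ)`, for all the characters `χ` of all the fields `K d` with
`χ ∘ σ ≠ χ` and conductor at most `X`, counted with multiplicity, at least 56 per cent are simple
zeros on the critical line. -/
theorem result (D : Set ℤ) (hD : ∀ d ∈ D, IsFundamental d ∧ d < 0) (hne : D.Nonempty)
    (K : ℤ → Type) [∀ d, Field (K d)] [∀ d, NumberField (K d)]
    (hK : ∀ d ∈ D, Module.finrank ℚ (K d) = 2 ∧ discr (K d) = d) :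
    ∃ L : (d : ℤ) → RCC (K d) → ℂ → ℂ,
      (∀ d ∈ D, ∀ χ : RCC (K d), NotInvariant χ →
        IsEntireL χ (L d χ) ∧ ∀ T : ℝ, (zeros (L d χ) T).Finite) ∧
      ∃ T₀ : ℝ, ∀ T : ℝ, T₀ ≤ T → ∃ X₀ : ℝ, ∀ X : ℝ, X₀ ≤ X →
        (∀ d ∈ upTo D X, (Family (K d) X).Finite) ∧
        0 < ∑ d ∈ upTo D X, ∑ᶠ χ ∈ Family (K d) X, count (L d χ) T ∧
        56 / 100 * ∑ d ∈ upTo D X, ∑ᶠ χ ∈ Family (K d) X, (count (L d χ) T : ℝ) ≤
          ∑ d ∈ upTo D X, ∑ᶠ χ ∈ Family (K d) X, ((simpleCritical (L d χ) T).ncard : ℝ) := by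
  have key : ∀ (K : Type) [Field K] [NumberField K] (X : ℝ),
      Family K X = Pool.Agent.H33.HH.Ui K (X / |(discr K : ℝ)|) := by
    intro K _ _ X
    have hd : 0 < |(discr K : ℝ)| := abs_pos.mpr (by exact_mod_cast discr_ne_zero K)
    ext χ
    unfold Family Pool.Agent.H33.HH.Ui conductor
    rw [Set.mem_ofPred_eq, Set.mem_ofPred_eq, le_div_iff₀ hd, mul_comm]
    exact Iff.rfl
  have hIQ : ∀ d ∈ D, Pool.Agent.H33.HH.IQ (K d) := fun d hd =>
    ⟨(hK d hd).1, by rw [(hK d hd).2]; exact (hD d hd).2⟩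
  have hchi : ∀ d ∈ D, ∀ χ : RCC (K d), NotInvariant χ →
      Pool.Agent.H37.CV.IsEnt χ (Pool.Agent.H65.CRZ.Zx χ) ∧
      ∀ T : ℝ, {ρ : ℂ | ρ ∈ Pool.Agent.H65.CRZ.St T ∧ Pool.Agent.H65.CRZ.Zx χ ρ = 0}.Finite := by
    intro d hd χ hχ
    have := hIQ d hd
    obtain ⟨h1, h2⟩ := Pool.Agent.H65.CZF.a_FNZ (K d) χ
      (Pool.Agent.H65.CZF.a_ENA (K d) χ (Or.inr hχ))
    exact ⟨h1, fun T => (h2 T).1⟩
  refine ⟨fun d χ => Pool.Agent.H65.CRZ.Zx χ, fun d hd χ hχ => ?_, ?_⟩
  · obtain ⟨h1, h2⟩ := hchi d hd χ hχ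
    exact ⟨h1, fun T => (count_eq (h2 T)).1⟩
  obtain ⟨T₀, hT₀, h⟩ := Pool.Agent.H65.CZF.a_ALZ D hD hne K hK
  refine ⟨T₀, fun T hT => ?_⟩
  obtain ⟨X₀, h⟩ := h T hT
  refine ⟨X₀, fun X hX => ?_⟩
  obtain ⟨h1, h2, h3⟩ := h X hX
  have hf : ∀ d ∈ upTo D X, Family (K d) X = Pool.Agent.H33.HH.Ui (K d) (X / |(d : ℝ)|) := by
    intro d hd
    have h4 : d ∈ D := ((Pool.Agent.H33.HH.mem_FD D X d).1 hd).2
    rw [key, (hK d h4).2]
  have hc : ∀ d ∈ upTo D X, ∑ᶠ χ ∈ Family (K d) X,
      (count (Pool.Agent.H65.CRZ.Zx χ) T : ℝ) =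
      ∑ᶠ χ ∈ Pool.Agent.H33.HH.Ui (K d) (X / |(d : ℝ)|), Pool.Agent.H65.CZF.nz T χ := by
    intro d hd
    have h4 : d ∈ D := ((Pool.Agent.H33.HH.mem_FD D X d).1 hd).2
    rw [hf d hd]
    refine finsum_mem_congr rfl fun χ hχ => ?_
    exact (count_eq ((hchi d h4 χ hχ.1).2 T)).2
  have hs : ∀ d ∈ upTo D X, ∑ᶠ χ ∈ Family (K d) X,
      ((simpleCritical (Pool.Agent.H65.CRZ.Zx χ) T).ncard : ℝ) =
      ∑ᶠ χ ∈ Pool.Agent.H33.HH.Ui (K d) (X / |(d : ℝ)|), Pool.Agent.H65.CZF.ns T χ := by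
    intro d hd
    rw [hf d hd]
    refine finsum_mem_congr rfl fun χ _ => ?_
    rw [simple_eq]
    rfl
  have e1 : ∑ d ∈ upTo D X, ∑ᶠ χ ∈ Family (K d) X, (count (Pool.Agent.H65.CRZ.Zx χ) T : ℝ) =
      ∑ d ∈ Pool.Agent.H33.HH.FD D X,
        ∑ᶠ χ ∈ Pool.Agent.H33.HH.Ui (K d) (X / |(d : ℝ)|), Pool.Agent.H65.CZF.nz T χ :=
    Finset.sum_congr rfl hc
  have e2 : ∑ d ∈ upTo D X, ∑ᶠ χ ∈ Family (K d) X,
      ((simpleCritical (Pool.Agent.H65.CRZ.Zx χ) T).ncard : ℝ) =
      ∑ d ∈ Pool.Agent.H33.HH.FD D X,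
        ∑ᶠ χ ∈ Pool.Agent.H33.HH.Ui (K d) (X / |(d : ℝ)|), Pool.Agent.H65.CZF.ns T χ :=
    Finset.sum_congr rfl hs
  have hfin : ∀ d ∈ upTo D X, (Family (K d) X).Finite := fun d hd => by
    rw [hf d hd]
    exact (h1 d hd).1
  refine ⟨hfin, ?_, ?_⟩
  · have h5 : (0 : ℝ) < ∑ d ∈ upTo D X, ∑ᶠ χ ∈ Family (K d) X,
        (count (Pool.Agent.H65.CRZ.Zx χ) T : ℝ) := by
      rw [e1]
      exact h2
    have h6 : ((∑ d ∈ upTo D X, ∑ᶠ χ ∈ Family (K d) X,
        count (Pool.Agent.H65.CRZ.Zx χ) T : ℕ) : ℝ) =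
        ∑ d ∈ upTo D X, ∑ᶠ χ ∈ Family (K d) X, (count (Pool.Agent.H65.CRZ.Zx χ) T : ℝ) := by
      rw [Nat.cast_sum]
      refine Finset.sum_congr rfl fun d hd => ?_
      rw [finsum_mem_eq_finite_toFinset_sum _ (hfin d hd),
        finsum_mem_eq_finite_toFinset_sum _ (hfin d hd), Nat.cast_sum]
    rw [← h6] at h5
    exact_mod_cast h5
  · show 56 / 100 * ∑ d ∈ upTo D X, ∑ᶠ χ ∈ Family (K d) X,
        (count (Pool.Agent.H65.CRZ.Zx χ) T : ℝ) ≤ _
    rw [e1]
    refine h3.trans (le_of_eq ?_)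
    exact e2.symm

end Pool.Agent.Results.MP_347b49_nt.MostZerosCritical
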